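import Pool.Agent.W912.LG.Defs

/-!
# Project LG: a distinguishing circuit
-/

set_option autoImplicit false

namespace Pool.Agent.W797.LG

open Pool.Agent.NPC Pool.Agent.H620R2.Gauge Pool.Agent.H622R2.Exp Pool.Agent.H622R2.Ckt
open Pool.Agent.W900.CH Pool.Agent.W912.EC Pool.Agent.W912.LG
open MeasureTheory Filter

theorem len_eq_range (n : ℕ) :
    {x : List Bool | x.length = n} = Set.range (fun f : Fin n → Bool => List.ofFn f) := by
  ext x
  constructor
  · intro h
    have h' : x.length = n := h
    subst h'
    exact ⟨x.get, List.ofFn_get x⟩
  · rintro ⟨f, rfl⟩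
    simp

theorem len_finite (n : ℕ) : {x : List Bool | x.length = n}.Finite := by
  rw [len_eq_range]
  exact Set.finite_range _

theorem len_ncard (n : ℕ) : Set.ncard {x : List Bool | x.length = n} = 2 ^ n := by
  rw [len_eq_range, ← Set.image_univ, Set.ncard_image_of_injective _ List.ofFn_injective,
    Set.ncard_univ, Nat.card_eq_fintype_card]
  simp

/-- the circuit -/
def circ (j e : ℕ) (w : List Bool) (k : ℕ) : Circuit where
  gates := [Gate.ask (((List.replicate e true ++ [false]).map Wire.cst ++
    (List.range k).map Wire.inp) ++ (w ++ List.replicate (j - e) false).map Wire.cst)]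
  out := Wire.gate 0

theorem circ_size (j e : ℕ) (w : List Bool) (k : ℕ) (u : List Bool) (hu : u.length = k) :
    (circ j e w k).size = (cds j e w u).length + 1 := by
  unfold Circuit.size circ cds
  simp only [List.map_cons, List.map_nil, List.sum_cons, List.sum_nil, Gate.size,
    List.length_append, List.length_map, List.length_range, List.length_replicate,
    List.length_cons, List.length_nil, hu]
  omega

theorem map_range_take (x : List Bool) (k : ℕ) (h : k ≤ x.length) :
    (List.range k).map (fun i => x.getD i false) = x.take k := by
  apply List.ext_getElem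
  · simp [h]
  · intro i h1 h2
    simp only [List.length_map, List.length_range] at h1
    rw [List.getElem_map, List.getElem_range, List.getElem_take,
      List.getD_eq_getElem _ _ (lt_of_lt_of_le h1 h)]

theorem circ_eval (A : Oracle) (j e : ℕ) (w : List Bool) (k : ℕ) (x : List Bool)
    (h : k ≤ x.length) : (circ j e w k).eval A x = A (cds j e w (x.take k)) := by
  have e1 : ∀ (v l : List Bool), (l.map Wire.cst).map (Wire.val x v) = l := by
    intro v l
    rw [List.map_map]
    conv_rhs => rw [← List.map_id l]
    rfl
  have e2 : ∀ v : List Bool, ((List.range k).map Wire.inp).map (Wire.val x v) = x.take k := by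
    intro v
    rw [List.map_map, ← map_range_take x k h]
    rfl
  unfold Circuit.eval circ gateVals
  simp only [List.foldl_cons, List.foldl_nil, List.nil_append, Wire.val, Gate.val,
    List.getD_cons_zero]
  rw [List.map_append, List.map_append, e1, e2, e1]
  rfl

theorem adv_holds : S_ADV := by
  intro A m k d j e w G hkm hdk hG hsz hcd
  refine ⟨circ j e w k, ?_, ?_⟩
  · rw [circ_size j e w k (List.replicate k false) (List.length_replicate ..)]
    exact hsz _ (List.length_replicate ..)
  · have f1 : frac d (fun s => (circ j e w k).eval A (G s) = true) = 1 := by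
      unfold frac
      have : {x : List Bool | x.length = d ∧ (circ j e w k).eval A (G x) = true} =
          {x : List Bool | x.length = d} := by
        ext s
        constructor
        · exact fun h => h.1
        · intro h
          have hs : s.length = d := h
          refine ⟨hs, ?_⟩
          rw [circ_eval A j e w k _ (by rw [hG s hs]; exact hkm)]
          exact (hcd _ (by rw [List.length_take, hG s hs]; omega)).2 ⟨s, hs, rfl⟩
      rw [this, len_ncard]
      push_cast
      exact div_self (by positivity)
    have f2 : frac m (fun x => (circ j e w k).eval A x = true) ≤ 1 / 16 := by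
      unfold frac
      have hsub : {x : List Bool | x.length = m ∧ (circ j e w k).eval A x = true} ⊆
          (fun p : List Bool × List Bool => (G p.1).take k ++ p.2) ''
            ({s : List Bool | s.length = d} ×ˢ {t : List Bool | t.length = m - k}) := by
        rintro x ⟨hx, hx2⟩
        rw [circ_eval A j e w k x (by omega)] at hx2
        obtain ⟨s, hs, hs2⟩ := (hcd _ (by rw [List.length_take]; omega)).1 hx2
        refine ⟨(s, x.drop k), ⟨hs, ?_⟩, ?_⟩
        · show (x.drop k).length = m - k
          rw [List.length_drop, hx]
        · show (G s).take k ++ x.drop k = x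
          rw [← hs2, List.take_append_drop]
      have hfin : ({s : List Bool | s.length = d} ×ˢ
          {t : List Bool | t.length = m - k}).Finite := (len_finite d).prod (len_finite (m - k))
      have hc : Set.ncard {x : List Bool | x.length = m ∧ (circ j e w k).eval A x = true} ≤
          2 ^ d * 2 ^ (m - k) := by
        refine (Set.ncard_le_ncard hsub (hfin.image _)).trans ((Set.ncard_image_le hfin).trans ?_)
        rw [Set.ncard_prod, len_ncard, len_ncard]
      have hc' : (Set.ncard {x : List Bool | x.length = m ∧
          (circ j e w k).eval A x = true} : ℝ) ≤ 2 ^ d * 2 ^ (m - k) := by exact_mod_cast hc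
      rw [div_le_iff₀ (by positivity)]
      refine hc'.trans ?_
      have h1 : (2 : ℝ) ^ d * 2 ^ (m - k) * 16 ≤ 2 ^ m := by
        have h2 : (16 : ℝ) = 2 ^ 4 := by norm_num
        rw [h2, ← pow_add, ← pow_add]
        exact pow_le_pow_right₀ (by norm_num) (by omega)
      linarith
    unfold adv
    rw [f1]
    have : (1 : ℝ) / 8 < 1 - frac m (fun x => (circ j e w k).eval A x = true) := by linarith
    exact lt_of_lt_of_le this (le_abs_self _)

end Pool.Agent.W797.LG
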